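import Mathlib

/-! M6a of the project on MP_41af65_gt (helper74): concentration of the derivative of a cutoff. -/

namespace Pool.Agent.Helper74.Iso3

open MeasureTheory Set Filter Topology
open scoped ContDiff ENNReal

/-- M6a: concentration of the derivative of a cutoff at the boundary -/
theorem tendsto_cutoff {r : ℝ} (hr : 0 < r) {G : ℝ × ℝ → ℝ}
    (hG : ContinuousOn G (Icc 0 r ×ˢ Icc (-r) r)) {χ : ℝ → ℝ} (hχ : ContDiff ℝ 1 χ)
    (h0 : ∀ s ≤ 1 / 2, χ s = 0) (h1 : ∀ s, 1 ≤ s → χ s = 1) :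
    Tendsto (fun n : ℕ => ∫ k in Icc (0 : ℝ) r ×ˢ Icc (-r) r,
      ((n : ℝ) + 1) * deriv χ (((n : ℝ) + 1) * k.1) * G k) atTop
      (𝓝 (∫ t in (-r)..r, G (0, t))) := by
  have hχc : Continuous χ := hχ.continuous
  have hdc : Continuous (deriv χ) := hχ.continuous_deriv le_rfl
  have hχd : Differentiable ℝ χ := hχ.differentiable one_ne_zero
  have hdz : ∀ s, 1 < s → deriv χ s = 0 := by
    intro s hs
    have : χ =ᶠ[𝓝 s] fun _ => (1 : ℝ) := by
      filter_upwards [lt_mem_nhds hs] with y hy using h1 y hy.le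
    rw [this.deriv_eq]; simp
  set g : ℝ → ℝ := fun s => ∫ t in (-r)..r, G (s, t) with hg
  have hrr : -r ≤ r := by linarith
  -- bound for G
  obtain ⟨C, hC⟩ : ∃ C, ∀ k ∈ Icc (0 : ℝ) r ×ˢ Icc (-r) r, ‖G k‖ ≤ C :=
    (isCompact_Icc.prod isCompact_Icc).exists_bound_of_continuousOn hG
  have hsec : ∀ s ∈ Icc (0 : ℝ) r, ContinuousOn (fun t => G (s, t)) (Icc (-r) r) := by
    intro s hs
    exact hG.comp (by fun_prop) (fun t ht => ⟨hs, ht⟩)
  -- continuity of g on [0, r]
  have hgc : ContinuousOn g (Icc 0 r) := by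
    intro s hs
    refine intervalIntegral.tendsto_integral_filter_of_dominated_convergence
      (fun _ => C) ?_ ?_ ?_ ?_
    · filter_upwards [self_mem_nhdsWithin] with x hx
      have := (hsec x hx).mono (uIoc_of_le hrr ▸ Ioc_subset_Icc_self)
      exact this.aestronglyMeasurable measurableSet_uIoc
    · filter_upwards [self_mem_nhdsWithin] with x hx
      refine Eventually.of_forall fun t ht => ?_
      rw [uIoc_of_le hrr] at ht
      exact hC (x, t) ⟨hx, Ioc_subset_Icc_self ht⟩
    · exact intervalIntegrable_const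
    · refine Eventually.of_forall fun t ht => ?_
      rw [uIoc_of_le hrr] at ht
      have h2 : ContinuousOn (fun x => G (x, t)) (Icc 0 r) :=
        hG.comp (by fun_prop) (fun x hx => ⟨hx, Ioc_subset_Icc_self ht⟩)
      exact h2 s hs
  -- bound for g
  obtain ⟨K, hK⟩ : ∃ K, ∀ s ∈ Icc (0 : ℝ) r, ‖g s‖ ≤ K :=
    isCompact_Icc.exists_bound_of_continuousOn hgc
  -- Fubini
  have hfub : ∀ n : ℕ, ∫ k in Icc (0 : ℝ) r ×ˢ Icc (-r) r,
      ((n : ℝ) + 1) * deriv χ (((n : ℝ) + 1) * k.1) * G k =
      ∫ s in (0 : ℝ)..r, ((n : ℝ) + 1) * deriv χ (((n : ℝ) + 1) * s) * g s := by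
    intro n
    have hint : IntegrableOn (fun k : ℝ × ℝ =>
        ((n : ℝ) + 1) * deriv χ (((n : ℝ) + 1) * k.1) * G k) (Icc (0 : ℝ) r ×ˢ Icc (-r) r)
        ((volume : Measure ℝ).prod volume) := by
      apply ContinuousOn.integrableOn_compact (isCompact_Icc.prod isCompact_Icc)
      apply ContinuousOn.mul _ hG
      apply Continuous.continuousOn
      fun_prop
    rw [Measure.volume_eq_prod, setIntegral_prod _ hint, intervalIntegral.integral_of_le hr.le,
      ← integral_Icc_eq_integral_Ioc]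
    refine setIntegral_congr_fun measurableSet_Icc fun s hs => ?_
    simp only
    rw [integral_const_mul, hg]
    simp only
    rw [intervalIntegral.integral_of_le hrr, ← integral_Icc_eq_integral_Ioc]
  simp only [hfub]
  -- substitution
  have hsub : ∀ᶠ n : ℕ in atTop,
      ∫ s in (0 : ℝ)..r, ((n : ℝ) + 1) * deriv χ (((n : ℝ) + 1) * s) * g s =
      ∫ u in (0 : ℝ)..1, deriv χ u * g (u / ((n : ℝ) + 1)) := by
    obtain ⟨m, hm⟩ := exists_nat_gt (1 / r)
    filter_upwards [eventually_ge_atTop m] with n hn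
    have hn0 : (0 : ℝ) < (n : ℝ) + 1 := by positivity
    have hmn : (m : ℝ) ≤ n := by exact_mod_cast hn
    have h3 : 1 / r < (n : ℝ) + 1 := by linarith
    have h4 : 1 < ((n : ℝ) + 1) * r := by
      rw [div_lt_iff₀ hr] at h3; linarith
    have e1 : ∫ s in (0 : ℝ)..r, ((n : ℝ) + 1) * deriv χ (((n : ℝ) + 1) * s) * g s =
        ((n : ℝ) + 1) * ∫ s in (0 : ℝ)..r,
          (fun u => deriv χ u * g (u / ((n : ℝ) + 1))) (((n : ℝ) + 1) * s) := by
      rw [← intervalIntegral.integral_const_mul]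
      congr 1
      ext s
      have : ((n : ℝ) + 1) * s / ((n : ℝ) + 1) = s := by field_simp
      simp only [this]
      ring
    have e2 := intervalIntegral.mul_integral_comp_mul_left (a := 0) (b := r) (f :=
      (fun u => deriv χ u * g (u / ((n : ℝ) + 1)))) (c := (n : ℝ) + 1)
    rw [mul_zero] at e2
    rw [e1, e2]
    -- split
    have hsplit : ∫ u in (0 : ℝ)..((n : ℝ) + 1) * r, deriv χ u * g (u / ((n : ℝ) + 1)) =
        (∫ u in (0 : ℝ)..1, deriv χ u * g (u / ((n : ℝ) + 1))) +
        ∫ u in (1 : ℝ)..((n : ℝ) + 1) * r, deriv χ u * g (u / ((n : ℝ) + 1)) := by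
      have hcont : ContinuousOn (fun u => deriv χ u * g (u / ((n : ℝ) + 1)))
          (Icc 0 (((n : ℝ) + 1) * r)) := by
        apply ContinuousOn.mul hdc.continuousOn
        apply hgc.comp (by fun_prop)
        intro u hu
        refine ⟨div_nonneg hu.1 hn0.le, ?_⟩
        rw [div_le_iff₀ hn0]
        linarith [hu.2]
      rw [intervalIntegral.integral_add_adjacent_intervals]
      · apply ContinuousOn.intervalIntegrable
        rw [uIcc_of_le (by norm_num)]
        exact hcont.mono (Icc_subset_Icc_right h4.le)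
      · apply ContinuousOn.intervalIntegrable
        rw [uIcc_of_le h4.le]
        exact hcont.mono (Icc_subset_Icc_left (by norm_num))
    rw [hsplit]
    have hz : ∫ u in (1 : ℝ)..((n : ℝ) + 1) * r, deriv χ u * g (u / ((n : ℝ) + 1)) = 0 := by
      rw [intervalIntegral.integral_of_le h4.le]
      apply setIntegral_eq_zero_of_forall_eq_zero
      intro u hu
      rw [hdz u hu.1, zero_mul]
    rw [hz, add_zero]
  refine Tendsto.congr' (EventuallyEq.symm hsub) ?_
  -- dominated convergence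
  have hlim : (∫ t in (-r)..r, G (0, t)) = ∫ u in (0 : ℝ)..1, deriv χ u * g 0 := by
    rw [intervalIntegral.integral_mul_const, intervalIntegral.integral_deriv_eq_sub
      (fun x _ => hχd x) (hdc.intervalIntegrable _ _), h1 1 le_rfl, h0 0 (by norm_num)]
    simp [hg]
  rw [hlim]
  obtain ⟨D, hD⟩ : ∃ D, ∀ u ∈ Icc (0 : ℝ) 1, ‖deriv χ u‖ ≤ D :=
    isCompact_Icc.exists_bound_of_continuousOn hdc.continuousOn
  have hmem : ∀ᶠ n : ℕ in atTop, ∀ u ∈ Icc (0 : ℝ) 1, u / ((n : ℝ) + 1) ∈ Icc (0 : ℝ) r := by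
    obtain ⟨m, hm⟩ := exists_nat_gt (1 / r)
    filter_upwards [eventually_ge_atTop m] with n hn u hu
    have hn0 : (0 : ℝ) < (n : ℝ) + 1 := by positivity
    have hmn : (m : ℝ) ≤ n := by exact_mod_cast hn
    have h3 : 1 / r < (n : ℝ) + 1 := by linarith
    rw [div_lt_iff₀ hr] at h3
    refine ⟨div_nonneg hu.1 hn0.le, ?_⟩
    rw [div_le_iff₀ hn0]
    linarith [hu.2]
  refine intervalIntegral.tendsto_integral_filter_of_dominated_convergence
    (fun _ => D * K) ?_ ?_ ?_ ?_
  · filter_upwards [hmem] with n hn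
    have hcont : ContinuousOn (fun u => deriv χ u * g (u / ((n : ℝ) + 1))) (Icc 0 1) := by
      apply ContinuousOn.mul hdc.continuousOn
      exact hgc.comp (by fun_prop) (fun u hu => hn u hu)
    have := hcont.mono (uIoc_of_le (zero_le_one (α := ℝ)) ▸ Ioc_subset_Icc_self)
    exact this.aestronglyMeasurable measurableSet_uIoc
  · filter_upwards [hmem] with n hn
    refine Eventually.of_forall fun u hu => ?_
    rw [uIoc_of_le (zero_le_one (α := ℝ))] at hu
    have hu' := Ioc_subset_Icc_self hu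
    rw [norm_mul]
    exact mul_le_mul (hD u hu') (hK _ (hn u hu')) (norm_nonneg _)
      ((norm_nonneg _).trans (hD u hu'))
  · exact intervalIntegrable_const
  · refine Eventually.of_forall fun u hu => ?_
    rw [uIoc_of_le (zero_le_one (α := ℝ))] at hu
    have hu' := Ioc_subset_Icc_self hu
    apply Tendsto.const_mul
    have h5 : Tendsto (fun n : ℕ => u / ((n : ℝ) + 1)) atTop (𝓝[Icc 0 r] 0) := by
      rw [tendsto_nhdsWithin_iff]
      constructor
      · have := tendsto_one_div_add_atTop_nhds_zero_nat (𝕜 := ℝ)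
        have h6 := this.const_mul u
        simp only [mul_zero] at h6
        refine h6.congr fun n => ?_
        ring
      · filter_upwards [hmem] with n hn using hn u hu'
    exact (hgc 0 ⟨le_rfl, hr.le⟩).tendsto.comp h5

end Pool.Agent.Helper74.Iso3
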