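import Mathlib

/-! M8 of the project on MP_41af65_gt (helper74): a linear local functional vanishing locally
vanishes. -/

namespace Pool.Agent.Helper74.Iso3

open MeasureTheory Set Filter Topology
open scoped ContDiff ENNReal Manifold

variable {E : Type*} [NormedAddCommGroup E] [InnerProductSpace ℝ E] [FiniteDimensional ℝ E]

theorem eq_zero_of_local {M : Set E} (hM : IsCompact M) (D : (E → E) → ℝ)
    (hadd : ∀ X Y : E → E, ContDiff ℝ 1 X → ContDiff ℝ 1 Y → D (fun x => X x + Y x) = D X + D Y)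
    (hloc : ∀ X Y : E → E, ContDiff ℝ 1 X → ContDiff ℝ 1 Y →
      (∃ V : Set E, IsOpen V ∧ M ⊆ V ∧ EqOn X Y V) → D X = D Y)
    (hzero : ∀ x ∈ M, ∃ N : Set E, IsOpen N ∧ x ∈ N ∧
      ∀ X : E → E, ContDiff ℝ 1 X → tsupport X ⊆ N → D X = 0)
    {X : E → E} (hX : ContDiff ℝ 1 X) : D X = 0 := by
  classical
  choose! N hNo hxN hN0 using hzero
  -- finite subcover
  obtain ⟨t, htM, htc⟩ := hM.elim_nhds_subcover N (fun x hx => (hNo x hx).mem_nhds (hxN x hx))
  have hUo : IsOpen (⋃ i : t, N i.1) := isOpen_iUnion fun i => hNo _ (htM _ i.2)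
  have hMU : M ⊆ ⋃ i : t, N i.1 := by
    intro x hx
    obtain ⟨i, hi, hxi⟩ := mem_iUnion₂.1 (htc hx)
    exact mem_iUnion.2 ⟨⟨i, hi⟩, hxi⟩
  obtain ⟨V, hVo, hMV, hVU⟩ := normal_exists_closure_subset hM.isClosed hUo hMU
  obtain ⟨ρ, hρ⟩ := SmoothPartitionOfUnity.exists_isSubordinate (I := 𝓘(ℝ, E)) (s := closure V)
    isClosed_closure (fun i : t => N i.1) (fun i => hNo _ (htM _ i.2)) hVU
  -- the pieces
  set Y : t → E → E := fun i x => ρ i x • X x with hY
  have hρd : ∀ i : t, ContDiff ℝ 1 (fun x => ρ i x) := by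
    intro i
    have h1 : ContDiff ℝ ∞ (ρ i) := (ρ i).contMDiff.contDiff
    exact h1.of_le (by exact_mod_cast le_top)
  have hYd : ∀ i, ContDiff ℝ 1 (Y i) := fun i => (hρd i).smul hX
  have hY0 : ∀ i, D (Y i) = 0 := by
    intro i
    apply hN0 i.1 (htM _ i.2) (Y i) (hYd i)
    refine (closure_mono ?_).trans (hρ i)
    intro x hx
    simp only [hY, Function.mem_support] at hx ⊢
    exact fun h => hx (by rw [h, zero_smul])
  -- D of zero
  have hD0 : D (fun _ => 0) = 0 := by
    have := hadd (fun _ => 0) (fun _ => 0) contDiff_const contDiff_const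
    simp only [add_zero] at this
    linarith
  have hsum : ∀ s : Finset t, ContDiff ℝ 1 (fun x => ∑ i ∈ s, Y i x) ∧
      D (fun x => ∑ i ∈ s, Y i x) = 0 := by
    intro s
    induction s using Finset.induction_on with
    | empty => exact ⟨by simpa using contDiff_const, by simpa using hD0⟩
    | insert a s ha ih =>
      simp only [Finset.sum_insert ha]
      refine ⟨(hYd a).add ih.1, ?_⟩
      rw [hadd _ _ (hYd a) ih.1, hY0, ih.2, add_zero]
  have hfin := hsum Finset.univ
  rw [hloc X (fun x => ∑ i, Y i x) hX hfin.1 ⟨V, hVo, hMV, ?_⟩, hfin.2]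
  intro x hx
  have h1 : ∑ i : t, ρ i x = 1 := by
    have := ρ.sum_eq_one (subset_closure hx)
    rw [finsum_eq_sum_of_fintype] at this
    exact this
  simp only [hY]
  rw [← Finset.sum_smul, h1, one_smul]

end Pool.Agent.Helper74.Iso3
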